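import Mathlib

set_option autoImplicit false

open Filter Topology

namespace Pool.Agent.FS.MinimalBound

variable {E H : Type*} [NormedAddCommGroup E] [NormedSpace ℝ E]
  [NormedAddCommGroup H] [NormedSpace ℝ H]

/-- The cone `{(x,t) : x ∈ P, ‖T x‖ ≤ t}`. -/
def cone (P : Set E) (T : E →L[ℝ] H) : Set (E × ℝ) := {z | z.1 ∈ P ∧ ‖T z.1‖ ≤ z.2}

theorem minimal [CompleteSpace H] [StrictConvexSpace ℝ H] (P : Set E) (T : E →L[ℝ] H)
    (hT : Function.Injective T)
    (hadd : ∀ x ∈ P, ∀ y ∈ P, x + y ∈ P) (h0 : (0 : E) ∈ P)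
    (hcl : ∀ (u : ℕ → E) (y : E), (∀ n, u n ∈ P) → Tendsto (fun n => T (u n)) atTop (𝓝 (T y)) →
      y ∈ P)
    (x : ℕ → E × ℝ) (hx : ∀ n, x (n + 1) - x n ∈ cone P T) (v : E × ℝ)
    (hv : ∀ n, v - x n ∈ cone P T) :
    ∃ s, (∀ n, s - x n ∈ cone P T) ∧ v - s ∈ cone P T ∧
      ∀ w, (∀ n, w - x n ∈ cone P T) → s - w ∈ cone P T → w = s := by
  have hmono : ∀ n k, (x (n + k)).1 - (x n).1 ∈ P ∧
      ‖T (x (n + k)).1 - T (x n).1‖ ≤ (x (n + k)).2 - (x n).2 := by
    intro n k
    induction k with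
    | zero => simp [h0]
    | succ k ih =>
      have h1 := (hx (n + k)).1
      have h2 := (hx (n + k)).2
      simp only [Prod.fst_sub, Prod.snd_sub, map_sub] at h1 h2
      refine ⟨?_, ?_⟩
      · have := hadd _ h1 _ ih.1
        rw [← add_assoc]
        simpa using this
      · have := norm_sub_le_norm_sub_add_norm_sub (T (x (n + k + 1)).1) (T (x (n + k)).1)
          (T (x n).1)
        rw [← add_assoc]
        linarith [ih.2]
  have hle : ∀ n m, n ≤ m → (x m).1 - (x n).1 ∈ P ∧
      ‖T (x m).1 - T (x n).1‖ ≤ (x m).2 - (x n).2 := by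
    intro n m h
    obtain ⟨k, rfl⟩ := Nat.exists_eq_add_of_le h
    exact hmono n k
  have htm : Monotone fun n => (x n).2 := by
    intro n m h
    have := (hle n m h).2
    have h2 := norm_nonneg (T (x m).1 - T (x n).1)
    show (x n).2 ≤ (x m).2
    linarith
  have hub : ∀ w : E × ℝ, (∀ n, w - x n ∈ cone P T) → ∀ n,
      ‖T w.1 - T (x n).1‖ ≤ w.2 - (x n).2 := by
    intro w hw n
    have := (hw n).2
    simpa only [Prod.fst_sub, Prod.snd_sub, map_sub] using this
  have hbdd : BddAbove (Set.range fun n => (x n).2) := by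
    refine ⟨v.2, ?_⟩
    rintro _ ⟨n, rfl⟩
    have := hub v hv n
    have h2 := norm_nonneg (T v.1 - T (x n).1)
    show (x n).2 ≤ v.2
    linarith
  set t := ⨆ n, (x n).2 with ht
  have htt : Tendsto (fun n => (x n).2) atTop (𝓝 t) := tendsto_atTop_ciSup htm hbdd
  have hlt : ∀ n, (x n).2 ≤ t := fun n => le_ciSup hbdd n
  have hcau : CauchySeq fun n => T (x n).1 := by
    refine cauchySeq_of_le_tendsto_0 (fun N => 2 * (t - (x N).2)) ?_ ?_
    · intro n m N hn hm
      rw [dist_eq_norm]
      have h1 := (hle N n hn).2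
      have h2 := (hle N m hm).2
      have h3 := norm_sub_le_norm_sub_add_norm_sub (T (x n).1) (T (x N).1) (T (x m).1)
      rw [norm_sub_rev (T (x N).1)] at h3
      linarith [hlt n, hlt m]
    · have : Tendsto (fun N => 2 * (t - (x N).2)) atTop (𝓝 (2 * (t - t))) :=
        (tendsto_const_nhds.sub htt).const_mul 2
      simpa using this
  obtain ⟨h, hh⟩ := cauchySeq_tendsto_of_complete hcau
  have hhn : ∀ n, ‖h - T (x n).1‖ ≤ t - (x n).2 := by
    intro n
    refine le_of_tendsto ((hh.sub_const (T (x n).1)).norm) ?_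
    filter_upwards [eventually_ge_atTop n] with m hm
    linarith [(hle n m hm).2, hlt m]
  have hlim : ∀ w : E × ℝ, (∀ n, w - x n ∈ cone P T) → ‖T w.1 - h‖ ≤ w.2 - t := by
    intro w hw
    exact le_of_tendsto_of_tendsto' ((tendsto_const_nhds.sub hh).norm)
      (tendsto_const_nhds.sub htt) (hub w hw)
  have key : ∀ y : E, (∀ n, y - (x n).1 ∈ P) →
      ∀ n, ((y, t + ‖T y - h‖) : E × ℝ) - x n ∈ cone P T := by
    intro y hy n
    refine ⟨hy n, ?_⟩
    simp only [Prod.fst_sub, Prod.snd_sub, map_sub]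
    have := norm_sub_le_norm_sub_add_norm_sub (T y) h (T (x n).1)
    linarith [hhn n]
  by_cases hr : ∃ y, T y = h
  · obtain ⟨y, rfl⟩ := hr
    have hy : ∀ n, y - (x n).1 ∈ P := by
      intro n
      refine hcl (fun k => (x (n + k)).1 - (x n).1) _ (fun k => (hmono n k).1) ?_
      simp only [map_sub]
      refine Tendsto.sub_const ?_ _
      have := (tendsto_add_atTop_iff_nat n).2 hh
      simpa only [add_comm] using this
    refine ⟨_, key y hy, ⟨?_, ?_⟩, fun w hw hs => ?_⟩
    · refine hcl (fun n => v.1 - (x n).1) _ (fun n => (hv n).1) ?_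
      simp only [Prod.fst_sub, map_sub]
      exact tendsto_const_nhds.sub hh
    · have := hlim v hv
      simp only [Prod.fst_sub, Prod.snd_sub, map_sub, sub_self, norm_zero, add_zero]
      exact this
    have h1 := hlim w hw
    have h2 := hs.2
    simp only [Prod.fst_sub, Prod.snd_sub, map_sub, sub_self, norm_zero, add_zero] at h2
    rw [norm_sub_rev] at h2
    have h3 := norm_nonneg (T w.1 - T y)
    have h4 : T w.1 = T y := sub_eq_zero.1 (norm_eq_zero.1 (by linarith))
    refine Prod.ext (hT h4) ?_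
    simp only [sub_self, norm_zero, add_zero]
    linarith
  · have hy : ∀ n, v.1 - (x n).1 ∈ P := fun n => (hv n).1
    refine ⟨_, key v.1 hy, ⟨by simpa using h0, ?_⟩, fun w hw hs => ?_⟩
    · have := hlim v hv
      simp only [Prod.fst_sub, Prod.snd_sub, sub_self, map_zero, norm_zero]
      linarith
    have h1 := hlim w hw
    have h2 := hs.2
    simp only [Prod.fst_sub, Prod.snd_sub, map_sub] at h2
    have h3 := norm_sub_le_norm_sub_add_norm_sub (T v.1) (T w.1) h
    have h4 : dist (T v.1) (T w.1) + dist (T w.1) h = dist (T v.1) h := by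
      simp only [dist_eq_norm]
      linarith
    obtain ⟨l, -, hl⟩ := dist_add_dist_eq_iff.1 h4
    rw [AffineMap.lineMap_apply] at hl
    simp only [vsub_eq_sub, vadd_eq_add] at hl
    have hl0 : l = 0 := by
      by_contra hne
      refine hr ⟨v.1 + l⁻¹ • (w.1 - v.1), ?_⟩
      rw [map_add, map_smul, map_sub, ← hl, add_sub_cancel_right, smul_smul,
        inv_mul_cancel₀ hne, one_smul]
      abel
    rw [hl0, zero_smul, zero_add] at hl
    refine Prod.ext (hT hl.symm) ?_
    rw [← hl] at h1 h2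
    simp only [sub_self, norm_zero] at h2
    show w.2 = t + ‖T v.1 - h‖
    linarith

end Pool.Agent.FS.MinimalBound
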